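import Mathlib
import Pool.Agent.Helper11.FinAxDefs
import Pool.Agent.Helper11.FinAxD

namespace Pool.Agent.Results.MP_d4b74c_al.NotFinAx

open FirstOrder Pool.Agent.Helper11.FinAx

universe u v w

/-- No finite set of first-order sentences in the language of lattices specifies the class of all
lattices embeddable in subspace lattices of vector spaces over division rings. -/
theorem result :
    ¬ ∃ T : Set LatLang.Sentence, T.Finite ∧
      ∀ (L : Type u) [Lattice L] [Nonempty L], InK.{u, v, w} L ↔ ∀ φ ∈ T, L ⊨ φ :=
  main

end Pool.Agent.Results.MP_d4b74c_al.NotFinAx
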